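import Pool.Agent.Helper12.NK.St

/-!
# Project NK, module PLU: the graph with a new vertex in every face is planar

Three copies of the darts of the map: the edges of the old graph (`inl d`), the spokes from the vertex of `d` to the face of `d`
(`inr (inl d)`) and the reversed spokes (`inr (inr d)`).
-/

set_option autoImplicit false

namespace Pool.Agent.Helper78.NK

open Pool.Agent.Helper12.NK
open Pool.Agent.Helper35.PM (Rot PMap Pl)
open Equiv Equiv.Perm

variable {V : Type}

/-- cycles are mapped into cycles -/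
theorem sameCycle_map {D E : Type} {r : Perm D} {s : Perm E} (f : D → E) (h : ∀ d, s.SameCycle (f d) (f (r d)))
    {d d' : D} (hdd : r.SameCycle d d') : s.SameCycle (f d) (f d') := by
  obtain ⟨k, hk⟩ := hdd
  rw [← hk]
  have hn : ∀ (n : ℕ) (d : D), s.SameCycle (f d) (f ((r ^ n) d)) := by
    intro n
    induction n with
    | zero => intro d; rw [pow_zero]; exact SameCycle.refl _ _
    | succ n ih =>
      intro d
      rw [pow_succ', Perm.mul_apply]
      exact (ih d).trans (h _)
  rcases Int.eq_nat_or_neg k with ⟨n, rfl | rfl⟩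
  · rw [zpow_natCast]; exact hn n d
  · have := hn n ((r ^ (-(n : ℤ))) d)
    rw [← Perm.mul_apply, ← zpow_natCast, ← zpow_add] at this
    simp only [add_neg_cancel, zpow_zero, Perm.coe_one, id_eq] at this
    exact this.symm

variable {H : SimpleGraph V}

/-- the darts of the new map -/
abbrev D3 (H : SimpleGraph V) : Type := H.Dart ⊕ (H.Dart ⊕ H.Dart)

/-- the rotation of the new map -/
def r3 (R : Rot H) : Perm (D3 H) where
  toFun x := match x with
    | Sum.inl d => Sum.inr (Sum.inl (R.r d))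
    | Sum.inr (Sum.inl d) => Sum.inl d
    | Sum.inr (Sum.inr d) => Sum.inr (Sum.inr (R.φ.symm d))
  invFun x := match x with
    | Sum.inl d => Sum.inr (Sum.inl d)
    | Sum.inr (Sum.inl d) => Sum.inl (R.r.symm d)
    | Sum.inr (Sum.inr d) => Sum.inr (Sum.inr (R.φ d))
  left_inv x := by
    rcases x with d | d | d
    · simp
    · simp
    · simp
  right_inv x := by
    rcases x with d | d | d
    · simp
    · simp
    · simp

/-- the involution of the new map -/
def i3 (H : SimpleGraph V) : D3 H → D3 H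
  | Sum.inl d => Sum.inl d.symm
  | Sum.inr (Sum.inl d) => Sum.inr (Sum.inr d)
  | Sum.inr (Sum.inr d) => Sum.inr (Sum.inl d)

/-- the vertices of the new map -/
def t3 (R : Rot H) : D3 H → V ⊕ Quotient (Equiv.Perm.SameCycle.setoid R.φ)
  | Sum.inl d => Sum.inl d.fst
  | Sum.inr (Sum.inl d) => Sum.inl d.fst
  | Sum.inr (Sum.inr d) => Sum.inr (Quotient.mk _ d)

theorem r3_a (R : Rot H) (d : H.Dart) : r3 R (Sum.inl d) = Sum.inr (Sum.inl (R.r d)) := rfl
theorem r3_b (R : Rot H) (d : H.Dart) : r3 R (Sum.inr (Sum.inl d)) = Sum.inl d := rfl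
theorem r3_g (R : Rot H) (d : H.Dart) : r3 R (Sum.inr (Sum.inr d)) = Sum.inr (Sum.inr (R.φ.symm d)) := rfl

theorem two {a : ZMod 2} : a + a = 0 := by
  revert a; decide

theorem pl3 (R : Rot H) : Pl (r3 R) (i3 H) := by
  intro x u hx hu
  have hβ : ∀ d, x (Sum.inr (Sum.inr d)) = x (Sum.inr (Sum.inl d)) := fun d => hx (Sum.inr (Sum.inl d))
  have hxs : ∀ d : H.Dart, x (Sum.inl d.symm) = x (Sum.inl d) := fun d => hx (Sum.inl d)
  have hγ : ∀ d : H.Dart, u (Sum.inr (Sum.inr (R.φ d))) =
      u (Sum.inr (Sum.inr d)) + x (Sum.inr (Sum.inl (R.φ d))) := by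
    intro d
    have h1 := hu (Sum.inr (Sum.inr (R.φ d)))
    rw [r3_g, Equiv.symm_apply_apply, hβ] at h1
    rw [h1, add_assoc, two, add_zero]
  have hγr : ∀ d : H.Dart, u (Sum.inr (Sum.inr (R.r d))) =
      u (Sum.inr (Sum.inr d.symm)) + x (Sum.inr (Sum.inl (R.r d))) := by
    intro d
    have h1 := hγ d.symm
    rw [R.φ_apply, SimpleGraph.Dart.symm_symm] at h1
    exact h1
  have hua : ∀ d : H.Dart, u (Sum.inl (R.r d)) = u (Sum.inl d) + x (Sum.inl d) + x (Sum.inr (Sum.inl (R.r d))) := by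
    intro d
    have h1 := hu (Sum.inr (Sum.inl (R.r d)))
    have h2 := hu (Sum.inl d)
    rw [r3_b] at h1
    rw [r3_a] at h2
    rw [h1, h2]
  obtain ⟨Z, hZ1, hZ2⟩ := R.pl
    (fun d => x (Sum.inl d) + u (Sum.inr (Sum.inr d)) + u (Sum.inr (Sum.inr d.symm)))
    (fun d => u (Sum.inl d) + u (Sum.inr (Sum.inr d)))
    (by
      intro d
      show x (Sum.inl d.symm) + u (Sum.inr (Sum.inr d.symm)) + u (Sum.inr (Sum.inr d.symm.symm)) =
        x (Sum.inl d) + u (Sum.inr (Sum.inr d)) + u (Sum.inr (Sum.inr d.symm))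
      rw [SimpleGraph.Dart.symm_symm, hxs]
      ring)
    (by
      intro d
      show u (Sum.inl (R.r d)) + u (Sum.inr (Sum.inr (R.r d))) = u (Sum.inl d) + u (Sum.inr (Sum.inr d)) +
        (x (Sum.inl d) + u (Sum.inr (Sum.inr d)) + u (Sum.inr (Sum.inr d.symm)))
      rw [hua, hγr]
      generalize u (Sum.inl d) = a1
      generalize x (Sum.inl d) = a2
      generalize x (Sum.inr (Sum.inl (R.r d))) = a3
      generalize u (Sum.inr (Sum.inr d.symm)) = a4
      generalize u (Sum.inr (Sum.inr d)) = a5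
      revert a1 a2 a3 a4 a5
      decide)
  have hZφ : ∀ d : H.Dart, Z (R.φ d) = Z d := by
    intro d
    have h1 := hZ1 d.symm
    have h2 := hZ2 d
    rw [← R.φ_apply] at h1
    simp only [SimpleGraph.Dart.symm_symm] at h1 h2
    rw [h1, h2, hxs]
    generalize Z d = a1
    generalize x (Sum.inl d) = a2
    generalize u (Sum.inr (Sum.inr d.symm)) = a4
    generalize u (Sum.inr (Sum.inr d)) = a5
    revert a1 a2 a4 a5
    decide
  refine ⟨fun y => match y with
    | Sum.inl d => u (Sum.inr (Sum.inr d)) + Z d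
    | Sum.inr (Sum.inl d) => u (Sum.inr (Sum.inr d)) + Z d + x (Sum.inr (Sum.inl d))
    | Sum.inr (Sum.inr d) => u (Sum.inr (Sum.inr d)) + Z d, ?_, ?_⟩
  · rintro (d | d | d)
    · show u (Sum.inr (Sum.inr (R.r d))) + Z (R.r d) + x (Sum.inr (Sum.inl (R.r d))) =
        u (Sum.inr (Sum.inr d)) + Z d + x (Sum.inl d)
      rw [hγr, hZ1]
      generalize Z d = a1
      generalize x (Sum.inl d) = a2
      generalize x (Sum.inr (Sum.inl (R.r d))) = a3
      generalize u (Sum.inr (Sum.inr d.symm)) = a4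
      generalize u (Sum.inr (Sum.inr d)) = a5
      revert a1 a2 a3 a4 a5
      decide
    · show u (Sum.inr (Sum.inr d)) + Z d = u (Sum.inr (Sum.inr d)) + Z d + x (Sum.inr (Sum.inl d)) +
        x (Sum.inr (Sum.inl d))
      rw [add_assoc (u (Sum.inr (Sum.inr d)) + Z d), two, add_zero]
    · show u (Sum.inr (Sum.inr (R.φ.symm d))) + Z (R.φ.symm d) = u (Sum.inr (Sum.inr d)) + Z d +
        x (Sum.inr (Sum.inr d))
      obtain ⟨e, rfl⟩ := R.φ.surjective d
      rw [Equiv.symm_apply_apply, hZφ, hγ, hβ]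
      generalize Z e = a1
      generalize x (Sum.inr (Sum.inl (R.φ e))) = a3
      generalize u (Sum.inr (Sum.inr e)) = a5
      revert a1 a3 a5
      decide
  · rintro (d | d | d)
    · show u (Sum.inr (Sum.inr d.symm)) + Z d.symm = u (Sum.inr (Sum.inr d)) + Z d + x (Sum.inl d)
      rw [hZ2]
      generalize Z d = a1
      generalize x (Sum.inl d) = a2
      generalize u (Sum.inr (Sum.inr d.symm)) = a4
      generalize u (Sum.inr (Sum.inr d)) = a5
      revert a1 a2 a4 a5
      decide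
    · show u (Sum.inr (Sum.inr d)) + Z d = u (Sum.inr (Sum.inr d)) + Z d + x (Sum.inr (Sum.inl d)) +
        x (Sum.inr (Sum.inl d))
      rw [add_assoc (u (Sum.inr (Sum.inr d)) + Z d), two, add_zero]
    · show u (Sum.inr (Sum.inr d)) + Z d + x (Sum.inr (Sum.inl d)) = u (Sum.inr (Sum.inr d)) + Z d +
        x (Sum.inr (Sum.inr d))
      rw [hβ]

/-- the new map -/
def m3 (R : Rot H) : PMap (V ⊕ Quotient (Equiv.Perm.SameCycle.setoid R.φ)) (D3 H) where
  r := r3 R
  ι := i3 H
  inv := by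
    rintro (d | d | d)
    · show Sum.inl d.symm.symm = _
      rw [SimpleGraph.Dart.symm_symm]
    · rfl
    · rfl
  nofix := by
    rintro (d | d | d) h
    · exact d.symm_ne (Sum.inl.inj h)
    · exact Sum.inr_ne_inl (Sum.inr.inj h)
    · exact Sum.inl_ne_inr (Sum.inr.inj h)
  t := t3 R
  t_r := by
    rintro (d | d | d)
    · show Sum.inl (R.r d).fst = Sum.inl d.fst
      rw [R.fst_r]
    · rfl
    · show Sum.inr (Quotient.mk _ (R.φ.symm d)) = Sum.inr (Quotient.mk _ d)
      congr 1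
      apply Quotient.sound
      show R.φ.SameCycle (R.φ.symm d) d
      refine ⟨1, ?_⟩
      rw [zpow_one, Equiv.apply_symm_apply]
  trans := by
    have haa : ∀ d d' : H.Dart, d.fst = d'.fst → (r3 R).SameCycle (Sum.inl d) (Sum.inl d') := by
      intro d d' h
      refine sameCycle_map (Sum.inl : H.Dart → D3 H) ?_ (R.trans d d' h)
      intro e
      refine ⟨2, ?_⟩
      show (r3 R ^ (2 : ℤ)) (Sum.inl e) = Sum.inl (R.r e)
      rw [zpow_two, Perm.mul_apply, r3_a, r3_b]
    have hba : ∀ d : H.Dart, (r3 R).SameCycle (Sum.inr (Sum.inl d)) (Sum.inl d) := by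
      intro d
      refine ⟨1, ?_⟩
      rw [zpow_one, r3_b]
    have hgg : ∀ d d' : H.Dart, R.φ.SameCycle d d' → (r3 R).SameCycle (Sum.inr (Sum.inr d)) (Sum.inr (Sum.inr d')) := by
      intro d d' h
      refine sameCycle_map (fun d => (Sum.inr (Sum.inr d) : D3 H)) ?_ h
      intro e
      refine SameCycle.symm ⟨1, ?_⟩
      show (r3 R ^ (1 : ℤ)) (Sum.inr (Sum.inr (R.φ e))) = Sum.inr (Sum.inr e)
      rw [zpow_one, r3_g, Equiv.symm_apply_apply]
    rintro (d | d | d) (d' | d' | d') h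
    · exact haa d d' (Sum.inl.inj h)
    · exact (haa d d' (Sum.inl.inj h)).trans (hba d').symm
    · exact absurd h Sum.inl_ne_inr
    · exact (hba d).trans (haa d d' (Sum.inl.inj h))
    · exact ((hba d).trans (haa d d' (Sum.inl.inj h))).trans (hba d').symm
    · exact absurd h Sum.inl_ne_inr
    · exact absurd h Sum.inr_ne_inl
    · exact absurd h Sum.inr_ne_inl
    · exact hgg d d' (Quotient.exact (Sum.inr.inj h))
  pl := pl3 R

/-- the choice of the darts -/
noncomputable def c3 (R : Rot H) : (rplus R).Dart → D3 H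
  | ⟨(Sum.inl a, Sum.inl b), h⟩ => Sum.inl ⟨(a, b), h⟩
  | ⟨(Sum.inl a, Sum.inr q), h⟩ =>
      Sum.inr (Sum.inl (Classical.choose (show ∃ e : H.Dart, Quotient.mk _ e = q ∧ e.fst = a from h)))
  | ⟨(Sum.inr q, Sum.inl a), h⟩ =>
      Sum.inr (Sum.inr (Classical.choose (show ∃ e : H.Dart, Quotient.mk _ e = q ∧ e.fst = a from h)))
  | ⟨(Sum.inr _, Sum.inr _), h⟩ => False.elim h

/-- the vertices of a chosen dart -/
theorem c3_t (R : Rot H) (δ : (rplus R).Dart) : t3 R (c3 R δ) = δ.fst := by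
  rcases δ with ⟨⟨a | q, b | q'⟩, h⟩
  · rfl
  · have h' : ∃ e : H.Dart, Quotient.mk _ e = q' ∧ e.fst = a := h
    show (Sum.inl (Classical.choose h').fst : V ⊕ Quotient (Equiv.Perm.SameCycle.setoid R.φ)) = Sum.inl a
    rw [(Classical.choose_spec h').2]
  · have h' : ∃ e : H.Dart, Quotient.mk _ e = q ∧ e.fst = b := h
    show (Sum.inr (Quotient.mk _ (Classical.choose h')) : V ⊕ Quotient (Equiv.Perm.SameCycle.setoid R.φ)) = Sum.inr q
    rw [(Classical.choose_spec h').1]
  · exact False.elim h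

theorem c3_s (R : Rot H) (δ : (rplus R).Dart) : i3 H (c3 R δ) = c3 R δ.symm := by
  rcases δ with ⟨⟨a | q, b | q'⟩, h⟩
  · rfl
  · rfl
  · rfl
  · exact False.elim h

theorem c3_inj (R : Rot H) : Function.Injective (c3 R) := by
  intro δ δ' h
  have h1 : δ.fst = δ'.fst := by rw [← c3_t R δ, ← c3_t R δ', h]
  have h2 : δ.snd = δ'.snd := by
    have h3 : c3 R δ.symm = c3 R δ'.symm := by rw [← c3_s, ← c3_s, h]
    have h4 : δ.symm.fst = δ'.symm.fst := by rw [← c3_t R δ.symm, ← c3_t R δ'.symm, h3]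
    exact h4
  apply SimpleGraph.Dart.ext
  exact Prod.ext h1 h2

/-- Module PLU. -/
theorem hPLU : StPLU := by
  intro V hV H R
  classical
  have := Fintype.ofFinite V
  have hD : Finite H.Dart := inferInstance
  have := Fintype.ofFinite (D3 H)
  obtain ⟨R', -⟩ := (m3 R).exists_rot (G := rplus R) id Function.injective_id (c3 R) (c3_inj R) (c3_t R) (c3_s R)
  exact ⟨R'⟩

end Pool.Agent.Helper78.NK
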